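import Mathlib

/-!
# Every natural number is the lim inf of the closed complexity of an aperiodic pure morphic word
-/

set_option autoImplicit false

namespace Pool.Agent.Results.MP_c8d5ab_co.Prescribed

open Filter

/-- `v` occurs in `w` at position `i`. -/
def OccAt {A : Type} (v w : List A) (i : ℕ) : Prop :=
  i + v.length ≤ w.length ∧ (w.drop i).take v.length = v

/-- The closed words. -/
def Closed {A : Type} (w : List A) : Prop :=
  w.length ≤ 1 ∨ ∃ v, v ≠ w ∧ v <+: w ∧ v <:+ w ∧ {i | OccAt v w i}.ncard = 2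

/-- The factor of length `n` of `x` at position `i`. -/
def fac {A : Type} (x : ℕ → A) (i n : ℕ) : List A := (List.range n).map (fun j => x (i + j))

/-- The closed complexity of `x`. -/
noncomputable def cl {A : Type} (x : ℕ → A) (n : ℕ) : ℕ :=
  {w | (∃ i, w = fac x i n) ∧ Closed w}.ncard

/-- `x` is not ultimately periodic. -/
def Aperiodic {A : Type} (x : ℕ → A) : Prop := ¬ ∃ N p, 0 < p ∧ ∀ i, N ≤ i → x (i + p) = x i

/-- `x` is pure morphic: `x = φ^ω(a)` where `φ(a)` begins with `a` and `|φ^m(a)| → ∞`. -/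
def PureMorphic {A : Type} (x : ℕ → A) : Prop :=
  ∃ (φ : A → List A) (a : A), [a] <+: φ a ∧
    Tendsto (fun m => ((fun w : List A => w.flatMap φ)^[m] [a]).length) atTop atTop ∧
    ∀ m, (fun w : List A => w.flatMap φ)^[m] [a] =
      fac x 0 ((fun w : List A => w.flatMap φ)^[m] [a]).length

namespace Proof

/-! ### uniform morphic words -/

section uniform

variable {A : Type}

/-- the fixed point of the uniform morphism `s ↦ g s 0, g s 1, …, g s (m-1)` -/
def fp (m : ℕ) (g : A → ℕ → A) (a : A) (n : ℕ) : A :=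
  (Nat.digits m n).foldr (fun d s => g s d) a

theorem fp_zero (m : ℕ) (g : A → ℕ → A) (a : A) : fp m g a 0 = a := by
  simp [fp]

theorem fp_eq (m : ℕ) (hm : 1 < m) (g : A → ℕ → A) (a : A) (ha : g a 0 = a) (n : ℕ) :
    fp m g a n = g (fp m g a (n / m)) (n % m) := by
  rcases Nat.eq_zero_or_pos n with h | h
  · subst h
    simp [fp, ha]
  · rw [fp, Nat.digits_def' hm h, List.foldr_cons]
    rfl

theorem fp_mul_add (m : ℕ) (hm : 1 < m) (g : A → ℕ → A) (a : A) (ha : g a 0 = a) (q r : ℕ)
    (hr : r < m) : fp m g a (q * m + r) = g (fp m g a q) r := by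
  rw [fp_eq m hm g a ha]
  congr 1
  · congr 1
    rw [mul_comm, Nat.mul_add_div (by omega), Nat.div_eq_of_lt hr, add_zero]
  · rw [mul_comm, Nat.mul_add_mod, Nat.mod_eq_of_lt hr]

/-- the morphism -/
def mor (m : ℕ) (g : A → ℕ → A) (s : A) : List A := (List.range m).map (g s)

theorem flat_range (m N : ℕ) (F : ℕ → A) :
    (List.range N).flatMap (fun q => (List.range m).map (fun r => F (q * m + r))) =
      (List.range (N * m)).map F := by
  induction N with
  | zero => simp
  | succ N ih =>
    rw [List.range_succ, List.flatMap_append, ih, add_mul, one_mul, List.range_add,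
      List.map_append, List.flatMap_singleton, List.map_map]
    rfl

theorem iter_eq (m : ℕ) (hm : 1 < m) (g : A → ℕ → A) (a : A) (ha : g a 0 = a) (j : ℕ) :
    (fun w : List A => w.flatMap (mor m g))^[j] [a] = (List.range (m ^ j)).map (fp m g a) := by
  induction j with
  | zero => simp [fp_zero]
  | succ j ih =>
    rw [Function.iterate_succ_apply', ih, pow_succ, ← flat_range, List.flatMap_map]
    apply List.flatMap_congr
    intro q _
    apply List.map_congr_left
    intro r hr
    rw [fp_mul_add m hm g a ha q r (List.mem_range.1 hr)]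

theorem pure_fp (m : ℕ) (hm : 1 < m) (g : A → ℕ → A) (a : A) (ha : g a 0 = a) :
    PureMorphic (fp m g a) := by
  refine ⟨mor m g, a, ?_, ?_, ?_⟩
  · obtain ⟨m', rfl⟩ : ∃ m', m = m' + 1 := ⟨m - 1, by omega⟩
    refine ⟨(List.range m').map (fun i => g a (i + 1)), ?_⟩
    rw [mor, List.range_succ_eq_map, List.map_cons, ha, List.map_map]
    rfl
  · simp only [iter_eq m hm g a ha, List.length_map, List.length_range]
    exact tendsto_pow_atTop_atTop_of_one_lt hm
  · intro j
    rw [iter_eq m hm g a ha, List.length_map, List.length_range, fac]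
    simp

end uniform

/-! ### factors and closed words -/

section closed

variable {A : Type}

theorem fac_length (x : ℕ → A) (i n : ℕ) : (fac x i n).length = n := by simp [fac]

theorem fac_drop_take (x : ℕ → A) (i n a b : ℕ) (h : a + b ≤ n) :
    ((fac x i n).drop a).take b = fac x (i + a) b := by
  apply List.ext_getElem
  · simp [fac]; omega
  · intro j h1 h2
    simp [fac, add_assoc]

theorem fac_inj (x : ℕ → A) (i j n : ℕ) (h : fac x i n = fac x j n) (t : ℕ) (ht : t < n) :
    x (i + t) = x (j + t) := by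
  have h1 := List.getElem_of_eq h (i := t) (by simpa [fac] using ht)
  simpa [fac] using h1

theorem fac_congr (x : ℕ → A) (i j n : ℕ) (h : ∀ t < n, x (i + t) = x (j + t)) :
    fac x i n = fac x j n := by
  apply List.map_congr_left
  intro t ht
  exact h t (List.mem_range.1 ht)

/-- the data given by a closed factor of length at least two -/
theorem closed_data (x : ℕ → A) (p n : ℕ) (hn : 2 ≤ n) (h : Closed (fac x p n)) :
    ∃ l, 1 ≤ l ∧ l < n ∧ (∀ t < l, x (p + t) = x (p + (n - l) + t)) ∧
      ∀ i, i + l ≤ n → (∀ t < l, x (p + i + t) = x (p + t)) → i = 0 ∨ i = n - l := by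
  rcases h with h | ⟨v, hv1, hv2, hv3, hv4⟩
  · rw [fac_length] at h; omega
  have hvl := hv2.length_le
  rw [fac_length] at hvl
  have e1 : v = fac x p v.length := by
    have := List.prefix_iff_eq_take.1 hv2
    conv_lhs => rw [this]
    have h2 := fac_drop_take x p n 0 v.length (by omega)
    rwa [List.drop_zero] at h2
  have e2 : v = fac x (p + (n - v.length)) v.length := by
    have := List.suffix_iff_eq_drop.1 hv3
    conv_lhs => rw [this]
    rw [fac_length]
    have h2 := fac_drop_take x p n (n - v.length) v.length (by omega)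
    rw [← h2, List.take_of_length_le]
    rw [List.length_drop, fac_length]
    omega
  have hne : v.length ≠ n := by
    intro h
    rw [h] at e1
    exact hv1 e1
  have occ : ∀ i, i + v.length ≤ n → fac x (p + i) v.length = v → OccAt v (fac x p n) i := by
    intro i h1 h2
    refine ⟨by rw [fac_length]; exact h1, ?_⟩
    rw [fac_drop_take x p n i v.length h1, h2]
  have o0 := occ 0 (by omega) (by rw [add_zero]; exact e1.symm)
  have o1 := occ (n - v.length) (by omega) e2.symm
  have hfin : {i | OccAt v (fac x p n) i}.Finite := by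
    apply (Set.finite_Iic n).subset
    intro i hi
    have := hi.1
    rw [fac_length] at this
    exact Set.mem_Iic.2 (by omega)
  have key : ∀ i, OccAt v (fac x p n) i → i = 0 ∨ i = n - v.length := by
    intro i hi
    by_contra hc
    push Not at hc
    have h3 : ({0, n - v.length, i} : Set ℕ).ncard = 3 := by
      rw [Set.ncard_eq_three]
      exact ⟨0, n - v.length, i, by omega, by omega, by omega, rfl⟩
    have h4 : ({0, n - v.length, i} : Set ℕ) ⊆ {i | OccAt v (fac x p n) i} := by
      intro z hz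
      rcases hz with rfl | rfl | rfl
      · exact o0
      · exact o1
      · exact hi
    have h5 := Set.ncard_le_ncard h4 hfin
    omega
  refine ⟨v.length, ?_, by omega, ?_, ?_⟩
  · by_contra h0
    have h0 : v.length = 0 := by omega
    have := key 1 (occ 1 (by omega) (by rw [List.length_eq_zero_iff.1 h0]; rfl))
    omega
  · intro t ht
    exact fac_inj x _ _ _ (e1.symm.trans e2) t ht
  · intro i hi1 hi2
    exact key i (occ i hi1 ((fac_congr x _ _ _ hi2).trans e1.symm))

theorem closed_replicate (n : ℕ) (c : A) : Closed (List.replicate n c) := by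
  rcases Nat.lt_or_ge 1 n with h | h
  · right
    refine ⟨List.replicate (n - 1) c, ?_, ?_, ?_, ?_⟩
    · intro h1
      have := congrArg List.length h1
      simp at this
      omega
    · refine ⟨[c], ?_⟩
      rw [← List.replicate_one, ← List.replicate_add]
      congr 1; omega
    · refine ⟨[c], ?_⟩
      rw [← List.replicate_one, ← List.replicate_add]
      congr 1; omega
    · rw [Set.ncard_eq_two]
      refine ⟨0, 1, by omega, ?_⟩
      ext i
      simp only [OccAt, List.length_replicate, Set.mem_ofPred_eq, Set.mem_insert_iff,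
        Set.mem_singleton_iff]
      constructor
      · rintro ⟨h1, -⟩
        omega
      · intro h1
        refine ⟨by omega, ?_⟩
        rw [List.drop_replicate, List.take_replicate]
        congr 1
        omega
  · left
    simpa using h

end closed

/-! ### the case `k = 0`: the paperfolding word with parities -/

/-- letters: (paperfolding bit, parity of the position) -/
def gp (s : Bool × Bool) (r : ℕ) : Bool × Bool := if r = 0 then (s.2, false) else (s.1, true)

/-- the word for `k = 0` -/
def pf : ℕ → Bool × Bool := fp 2 gp (false, false)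

theorem pf_even (n : ℕ) : pf (2 * n) = ((pf n).2, false) := by
  have := fp_mul_add 2 (by norm_num) gp (false, false) rfl n 0 (by norm_num)
  rw [show n * 2 + 0 = 2 * n by ring] at this
  exact this

theorem pf_odd (n : ℕ) : pf (2 * n + 1) = ((pf n).1, true) := by
  have := fp_mul_add 2 (by norm_num) gp (false, false) rfl n 1 (by norm_num)
  rw [show n * 2 + 1 = 2 * n + 1 by ring] at this
  exact this

theorem pf_snd (n : ℕ) : (pf n).2 = decide (n % 2 = 1) := by
  rcases Nat.even_or_odd' n with ⟨m, rfl | rfl⟩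
  · rw [pf_even]; simp
  · rw [pf_odd]; simp

theorem par_of (i j : ℕ) (h : pf i = pf j) : i % 2 = j % 2 := by
  have h1 := congrArg Prod.snd h
  rw [pf_snd, pf_snd] at h1
  have h2 : (i % 2 = 1) ↔ (j % 2 = 1) := by simpa using h1
  omega

theorem pf_four (i g : ℕ) (hi : i % 2 = 0) (h : pf i = pf (i + g)) : 4 ∣ g := by
  have h1 := par_of _ _ h
  obtain ⟨a, rfl⟩ : ∃ a, i = 2 * a := ⟨i / 2, by omega⟩
  obtain ⟨b, hb⟩ : ∃ b, 2 * a + g = 2 * b := ⟨(2 * a + g) / 2, by omega⟩
  rw [hb, pf_even, pf_even, pf_snd, pf_snd] at h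
  have h2 : (a % 2 = 1) ↔ (b % 2 = 1) := by simpa using h
  omega

theorem pf_gap (e : ℕ) : ∀ i g, (∀ t < 2 ^ e, pf (i + t) = pf (i + g + t)) →
    2 ^ (e + 1) ∣ g := by
  induction e with
  | zero =>
    intro i g h
    have := par_of _ _ (h 0 (by norm_num))
    simp only [zero_add, pow_one]
    omega
  | succ e ih =>
    intro i g h
    have hpos : 0 < 2 ^ e := Nat.two_pow_pos e
    have h4 : 4 ∣ g := by
      rcases Nat.mod_two_eq_zero_or_one i with h0 | h0
      · have := h 0 (by positivity)
        exact pf_four i g h0 (by simpa using this)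
      · have := h 1 (by rw [pow_succ]; omega)
        refine pf_four (i + 1) g (by omega) ?_
        rw [this]; congr 1; ring
    obtain ⟨d, rfl⟩ : ∃ d, g = 2 * d := ⟨g / 2, by omega⟩
    have h5 : 2 ^ (e + 1) ∣ d := by
      -- the first odd position is `2 * (i / 2) + 1`
      apply ih (i / 2) d
      intro t ht
      have hlt : 2 * t + 1 < 2 ^ (e + 1) := by rw [pow_succ]; omega
      have hodd : ∀ m, 2 * m + 1 = i + (2 * m + 1 - i) → 2 * m + 1 - i < 2 ^ (e + 1) →
          pf m = pf (m + d) := by
        intro m hm1 hm2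
        have h6 := h _ hm2
        rw [← hm1, show i + 2 * d + (2 * m + 1 - i) = 2 * (m + d) + 1 by omega, pf_odd,
          pf_odd] at h6
        have h7 : (pf m).1 = (pf (m + d)).1 := (Prod.mk.inj h6).1
        have h8 : (pf m).2 = (pf (m + d)).2 := by
          rw [pf_snd, pf_snd]
          congr 1
          apply propext
          omega
        exact Prod.ext h7 h8
      rcases Nat.mod_two_eq_zero_or_one i with h0 | h0
      · have := hodd (i / 2 + t) (by omega) (by omega)
        rw [this]; congr 1; ring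
      · have := hodd (i / 2 + t) (by omega) (by omega)
        rw [this]; congr 1; ring
    rw [pow_succ, mul_comm]
    exact Nat.mul_dvd_mul_left 2 h5

theorem pf_open (j p : ℕ) (hj : 1 ≤ j) : ¬ Closed (fac pf p (2 ^ j)) := by
  intro h
  have h2 : 2 ≤ 2 ^ j := by
    calc 2 = 2 ^ 1 := by norm_num
      _ ≤ 2 ^ j := Nat.pow_le_pow_right (by norm_num) hj
  obtain ⟨l, hl1, hl2, hl3, -⟩ := closed_data pf p (2 ^ j) h2 h
  have he1 := Nat.pow_log_le_self 2 (show l ≠ 0 by omega)
  have he2 := Nat.lt_pow_succ_log_self (show 1 < 2 by norm_num) l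
  set e := Nat.log 2 l with he
  have hej : e < j := by
    by_contra hc
    have := Nat.pow_le_pow_right (show 0 < 2 by norm_num) (show j ≤ e by omega)
    omega
  have hd := pf_gap e p (2 ^ j - l) (by
    intro t ht
    exact hl3 t (by omega))
  have hd2 : 2 ^ (e + 1) ∣ 2 ^ j := pow_dvd_pow 2 (by omega)
  have hd3 : 2 ^ (e + 1) ∣ l := by
    have := Nat.dvd_sub hd2 hd
    rwa [Nat.sub_sub_self (by omega)] at this
  have := Nat.le_of_dvd (by omega) hd3
  omega

theorem pf_cl (j : ℕ) (hj : 1 ≤ j) : cl pf (2 ^ j) = 0 := by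
  rw [cl]
  have : {w | (∃ i, w = fac pf i (2 ^ j)) ∧ Closed w} = ∅ := by
    ext w
    simp only [Set.mem_ofPred_eq, Set.mem_empty_iff_false, iff_false]
    rintro ⟨⟨i, rfl⟩, h⟩
    exact pf_open j i hj h
  rw [this, Set.ncard_empty]

theorem pf_aper : Aperiodic pf := by
  rintro ⟨N, p, hp, h⟩
  have h1 := pf_gap p N p (by
    intro t _
    rw [show N + p + t = N + t + p by ring]
    exact (h (N + t) (by omega)).symm)
  have h2 := Nat.le_of_dvd hp h1
  have h3 : p < 2 ^ p := Nat.lt_two_pow_self
  have h4 : 2 ^ p ≤ 2 ^ (p + 1) := Nat.pow_le_pow_right (by norm_num) (by omega)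
  omega

/-! ### the case `k ≥ 1` -/

section pos

variable (k : ℕ)

/-- the image of a letter: `none ↦ none 0 0 none 1 1 none … (k-1) (k-1) none` and
`some i ↦ (some i)^(3k+1)` -/
def gk (s : Option (Fin k)) (r : ℕ) : Option (Fin k) :=
  match s with
  | none => if h : r % 3 ≠ 0 ∧ r / 3 < k then some ⟨r / 3, h.2⟩ else none
  | some i => some i

/-- the word for `k ≥ 1` -/
def X : ℕ → Option (Fin k) := fp (3 * k + 1) (gk k) none

variable {k}

theorem gk_some (i : Fin k) (r : ℕ) : gk k (some i) r = some i := rfl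

theorem gk_none (r : ℕ) (h : r % 3 = 0) : gk k none r = none := by
  simp [gk, h]

theorem gk_none' (r : ℕ) (h : r % 3 ≠ 0) (h2 : r / 3 < k) :
    gk k none r = some ⟨r / 3, h2⟩ := by
  simp [gk, h, h2]

theorem X_add (hk : 1 ≤ k) (q r : ℕ) (hr : r < 3 * k + 1) :
    X k (q * (3 * k + 1) + r) = gk k (X k q) r :=
  fp_mul_add (3 * k + 1) (by omega) (gk k) none (by simp [gk]) q r hr

theorem X_zero : X k 0 = none := fp_zero _ _ _

/-- block structure -/
theorem X_blk (hk : 1 ≤ k) (J : ℕ) : ∀ q r, r < (3 * k + 1) ^ J →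
    (∀ i, X k q = some i → X k (q * (3 * k + 1) ^ J + r) = some i) ∧
      (X k q = none → X k (q * (3 * k + 1) ^ J + r) = X k r) := by
  induction J with
  | zero =>
    intro q r hr
    have : r = 0 := by simpa using hr
    subst this
    simp only [pow_zero, mul_one, add_zero]
    exact ⟨fun i h => h, fun h => by rw [h, X_zero]⟩
  | succ J ih =>
    intro q r hr
    have hm : 0 < 3 * k + 1 := by omega
    have h1 : r / (3 * k + 1) < (3 * k + 1) ^ J := by
      rw [Nat.div_lt_iff_lt_mul hm]
      rwa [pow_succ] at hr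
    have h2 : r % (3 * k + 1) < 3 * k + 1 := Nat.mod_lt _ hm
    have h3 := Nat.div_add_mod r (3 * k + 1)
    obtain ⟨ih1, ih2⟩ := ih q (r / (3 * k + 1)) h1
    have e1 : q * (3 * k + 1) ^ (J + 1) + r =
        (q * (3 * k + 1) ^ J + r / (3 * k + 1)) * (3 * k + 1) + r % (3 * k + 1) := by
      conv_lhs => rw [← h3]
      ring
    have e2 : X k r = gk k (X k (r / (3 * k + 1))) (r % (3 * k + 1)) := by
      rw [← X_add hk _ _ h2]
      congr 1
      rw [mul_comm]; exact h3.symm
    constructor
    · intro i hi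
      rw [e1, X_add hk _ _ h2, ih1 i hi]
      rfl
    · intro hi
      rw [e1, X_add hk _ _ h2, ih2 hi, e2]

/-- a position in block `q` -/
theorem blk_pos (N q u : ℕ) (h1 : q * N ≤ u) (h2 : u < (q + 1) * N) :
    ∃ r, r < N ∧ u = q * N + r := by
  refine ⟨u - q * N, ?_, by omega⟩
  rw [add_mul, one_mul] at h2
  omega

theorem X_some (hk : 1 ≤ k) (J q : ℕ) (i : Fin k) (hq : X k q = some i) (u : ℕ)
    (h1 : q * (3 * k + 1) ^ J ≤ u) (h2 : u < (q + 1) * (3 * k + 1) ^ J) : X k u = some i := by
  obtain ⟨r, hr, rfl⟩ := blk_pos _ _ _ h1 h2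
  exact (X_blk hk J q r hr).1 i hq

/-- an `a` in a block comes from an `a` -/
theorem X_none_of (hk : 1 ≤ k) (J q u : ℕ) (h1 : q * (3 * k + 1) ^ J ≤ u)
    (h2 : u < (q + 1) * (3 * k + 1) ^ J) (hu : X k u = none) : X k q = none := by
  rcases h : X k q with _ | i
  · rfl
  · rw [X_some hk J q i h u h1 h2] at hu
    exact absurd hu (by simp)

theorem X_first (hk : 1 ≤ k) (J q : ℕ) (hq : X k q = none) :
    X k (q * (3 * k + 1) ^ J) = none := by
  have := (X_blk hk J q 0 (by positivity)).2 hq
  rw [add_zero] at this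
  rw [this, X_zero]

theorem X_last0 (hk : 1 ≤ k) (J : ℕ) : X k ((3 * k + 1) ^ J - 1) = none := by
  induction J with
  | zero => simpa using X_zero
  | succ J ih =>
    have hp : 0 < (3 * k + 1) ^ J := by positivity
    have : (3 * k + 1) ^ (J + 1) - 1 = ((3 * k + 1) ^ J - 1) * (3 * k + 1) + 3 * k := by
      obtain ⟨z, hz⟩ : ∃ z, (3 * k + 1) ^ J = z + 1 := ⟨(3 * k + 1) ^ J - 1, by omega⟩
      rw [pow_succ, hz, Nat.add_sub_cancel]
      have : (z + 1) * (3 * k + 1) = z * (3 * k + 1) + 3 * k + 1 := by ring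
      omega
    rw [this, X_add hk _ _ (by omega), ih, gk_none _ (by omega)]

theorem X_last (hk : 1 ≤ k) (J q : ℕ) (hq : X k q = none) :
    X k ((q + 1) * (3 * k + 1) ^ J - 1) = none := by
  have hp : 0 < (3 * k + 1) ^ J := by positivity
  have := (X_blk hk J q ((3 * k + 1) ^ J - 1) (by omega)).2 hq
  rw [X_last0 hk J] at this
  rw [← this]
  congr 1
  rw [add_mul, one_mul]
  omega

/-- after an `a` come two equal other letters -/
theorem X_nxt (hk : 1 ≤ k) : ∀ q, X k q = none →
    ∃ i, X k (q + 1) = some i ∧ X k (q + 2) = some i := by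
  intro q
  induction q using Nat.strong_induction_on with
  | _ q ih =>
  intro hq
  have hm : 0 < 3 * k + 1 := by omega
  have h2 : q % (3 * k + 1) < 3 * k + 1 := Nat.mod_lt _ hm
  have h3 := Nat.div_add_mod q (3 * k + 1)
  rw [mul_comm] at h3
  set c := q / (3 * k + 1) with hc
  set r := q % (3 * k + 1) with hr
  rw [← h3, X_add hk _ _ h2] at hq
  rcases hcx : X k c with _ | i
  · rw [hcx] at hq
    have hr3 : r % 3 = 0 := by
      by_contra h
      rw [gk_none' r h (by omega)] at hq
      exact absurd hq (by simp)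
    rcases Nat.lt_or_ge (r / 3) k with h4 | h4
    · refine ⟨⟨r / 3, h4⟩, ?_, ?_⟩
      · rw [← h3, add_assoc, X_add hk _ _ (by omega), hcx,
          gk_none' (r + 1) (by omega) (by omega)]
        congr 2; omega
      · rw [← h3, add_assoc, X_add hk _ _ (by omega), hcx,
          gk_none' (r + 2) (by omega) (by omega)]
        congr 2; omega
    · have hr4 : r = 3 * k := by omega
      have hcq : c < q := by
        rcases Nat.eq_zero_or_pos c with h0 | h0
        · rw [h0] at h3; omega
        · nlinarith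
      obtain ⟨i, hi1, -⟩ := ih c hcq hcx
      refine ⟨i, ?_, ?_⟩
      · rw [← h3, hr4, show c * (3 * k + 1) + 3 * k + 1 = (c + 1) * (3 * k + 1) + 0 by ring,
          X_add hk _ _ (by omega), hi1]
        rfl
      · rw [← h3, hr4, show c * (3 * k + 1) + 3 * k + 2 = (c + 1) * (3 * k + 1) + 1 by ring,
          X_add hk _ _ (by omega), hi1]
        rfl
  · rw [hcx] at hq
    exact absurd hq (by simp [gk])

/-- before an `a` (not at the origin) come two equal other letters -/
theorem X_prv (hk : 1 ≤ k) : ∀ q, 0 < q → X k q = none →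
    ∃ i, 2 ≤ q ∧ X k (q - 1) = some i ∧ X k (q - 2) = some i := by
  intro q
  induction q using Nat.strong_induction_on with
  | _ q ih =>
  intro hq0 hq
  have hm : 0 < 3 * k + 1 := by omega
  have h2 : q % (3 * k + 1) < 3 * k + 1 := Nat.mod_lt _ hm
  have h3 := Nat.div_add_mod q (3 * k + 1)
  rw [mul_comm] at h3
  set c := q / (3 * k + 1) with hc
  set r := q % (3 * k + 1) with hr
  rw [← h3, X_add hk _ _ h2] at hq
  rcases hcx : X k c with _ | i
  · rw [hcx] at hq
    have hr3 : r % 3 = 0 := by
      by_contra h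
      rw [gk_none' r h (by omega)] at hq
      exact absurd hq (by simp)
    rcases Nat.eq_zero_or_pos r with h4 | h4
    · have hc0 : 0 < c := by
        rcases Nat.eq_zero_or_pos c with h0 | h0
        · rw [h0] at h3; omega
        · exact h0
      have hcq : c < q := by nlinarith
      obtain ⟨i, hi0, hi1, -⟩ := ih c hcq hc0 hcx
      obtain ⟨c', hc'⟩ : ∃ c', c = c' + 1 := ⟨c - 1, by omega⟩
      have e0 : q = c' * (3 * k + 1) + (3 * k + 1) := by
        rw [← h3, h4, hc']; ring
      rw [hc', Nat.add_sub_cancel] at hi1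
      refine ⟨i, by omega, ?_, ?_⟩
      · rw [e0, show c' * (3 * k + 1) + (3 * k + 1) - 1 = c' * (3 * k + 1) + 3 * k by omega,
          X_add hk _ _ (by omega), hi1]
        rfl
      · rw [e0, show c' * (3 * k + 1) + (3 * k + 1) - 2 = c' * (3 * k + 1) + (3 * k - 1) by
          omega, X_add hk _ _ (by omega), hi1]
        rfl
    · refine ⟨⟨r / 3 - 1, by omega⟩, by omega, ?_, ?_⟩
      · rw [show q - 1 = c * (3 * k + 1) + (r - 1) by omega,
          X_add hk _ _ (by omega), hcx, gk_none' (r - 1) (by omega) (by omega)]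
        congr 2; omega
      · rw [show q - 2 = c * (3 * k + 1) + (r - 2) by omega,
          X_add hk _ _ (by omega), hcx, gk_none' (r - 2) (by omega) (by omega)]
        congr 2; omega
  · rw [hcx] at hq
    exact absurd hq (by simp [gk])

/-- adjacent letters different from `a` are equal -/
theorem X_adj (hk : 1 ≤ k) : ∀ q i j, X k q = some i → X k (q + 1) = some j → i = j := by
  intro q
  induction q using Nat.strong_induction_on with
  | _ q ih =>
  intro i j hi hj
  have hm : 0 < 3 * k + 1 := by omega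
  have h2 : q % (3 * k + 1) < 3 * k + 1 := Nat.mod_lt _ hm
  have h3 := Nat.div_add_mod q (3 * k + 1)
  rw [mul_comm] at h3
  set c := q / (3 * k + 1) with hc
  set r := q % (3 * k + 1) with hr
  rcases Nat.lt_or_ge (r + 1) (3 * k + 1) with h4 | h4
  · rw [← h3, add_assoc, X_add hk _ _ h4] at hj
    rw [← h3, X_add hk _ _ h2] at hi
    rcases hcx : X k c with _ | l
    · rw [hcx] at hi hj
      have hr3 : r % 3 ≠ 0 := by
        intro h
        rw [gk_none r h] at hi
        exact absurd hi (by simp)
      have hr4 : (r + 1) % 3 ≠ 0 := by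
        intro h
        rw [gk_none _ h] at hj
        exact absurd hj (by simp)
      rw [gk_none' r hr3 (by omega)] at hi
      rw [gk_none' (r + 1) hr4 (by omega)] at hj
      rw [← Option.some.inj hi, ← Option.some.inj hj]
      congr 1
      omega
    · rw [hcx] at hi hj
      exact (Option.some.inj hi).symm.trans (Option.some.inj hj)
  · have hr4 : r = 3 * k := by omega
    rw [← h3, hr4, show c * (3 * k + 1) + 3 * k + 1 = (c + 1) * (3 * k + 1) + 0 by ring,
      X_add hk _ _ (by omega)] at hj
    rw [← h3, X_add hk _ _ h2] at hi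
    rcases hcx : X k c with _ | l
    · rw [hcx, gk_none r (by omega)] at hi
      exact absurd hi (by simp)
    · rcases hcx' : X k (c + 1) with _ | l'
      · rw [hcx', gk_none 0 (by omega)] at hj
        exact absurd hj (by simp)
      · rw [hcx] at hi
        rw [hcx'] at hj
        have hcq : c < q := by
          rcases Nat.eq_zero_or_pos c with h0 | h0
          · rw [h0] at h3; omega
          · nlinarith
        rw [← Option.some.inj hi, ← Option.some.inj hj]
        exact ih c hcq l l' hcx hcx'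

theorem sub_block (hk : 1 ≤ k) (j q u : ℕ) (hq : X k q = none)
    (h1 : q * (3 * k + 1) ^ (j + 1) ≤ u) (h2 : u < (q + 1) * (3 * k + 1) ^ (j + 1)) :
    ∃ c r, r < 3 * k + 1 ∧ c = q * (3 * k + 1) + r ∧ c * (3 * k + 1) ^ j ≤ u ∧
      u < c * (3 * k + 1) ^ j + (3 * k + 1) ^ j ∧
      ∀ r' < 3 * k + 1, r' % 3 = 0 → X k (q * (3 * k + 1) + r') = none := by
  have hp : 0 < (3 * k + 1) ^ j := by positivity
  have hc1 : q * (3 * k + 1) ≤ u / (3 * k + 1) ^ j := by
    rw [Nat.le_div_iff_mul_le hp, mul_assoc, ← pow_succ']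
    exact h1
  have hc2 : u / (3 * k + 1) ^ j < (q + 1) * (3 * k + 1) := by
    rw [Nat.div_lt_iff_lt_mul hp, mul_assoc, ← pow_succ']
    exact h2
  obtain ⟨r, hr, hcr⟩ := blk_pos _ _ _ hc1 hc2
  refine ⟨u / (3 * k + 1) ^ j, r, hr, hcr, Nat.div_mul_le_self _ _, ?_, ?_⟩
  · have := Nat.lt_mul_div_succ u hp
    rwa [mul_add, mul_one, mul_comm ((3 * k + 1) ^ j)] at this
  · intro r' h3 h4
    rw [X_add hk _ _ h3, hq, gk_none _ h4]

/-- in a block of `a`, the next `a` is near (level `j`) -/
theorem gap_right (hk : 1 ≤ k) (j q u : ℕ) (hq : X k q = none)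
    (h1 : q * (3 * k + 1) ^ (j + 1) ≤ u) (h2 : u < (q + 1) * (3 * k + 1) ^ (j + 1)) :
    ∃ z, u ≤ z ∧ z ≤ u + 2 * (3 * k + 1) ^ j ∧ X k z = none := by
  have hp : 0 < (3 * k + 1) ^ j := by positivity
  obtain ⟨c, r, hr, hcr, hu1, hu2, hX⟩ := sub_block hk j q u hq h1 h2
  have hf := fun c' => X_first (k := k) hk j c'
  have hl := fun c' => X_last (k := k) hk j c'
  clear h1 h2
  generalize (3 * k + 1) ^ j = E at *
  rcases (show r % 3 = 0 ∨ r % 3 = 1 ∨ r % 3 = 2 by omega) with h3 | h3 | h3
  · have := hl c (by rw [hcr]; exact hX r hr h3)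
    rw [add_mul, one_mul] at this
    exact ⟨_, by omega, by omega, this⟩
  · have := hf (c + 2) (by rw [hcr, add_assoc]; exact hX (r + 2) (by omega) (by omega))
    rw [add_mul] at this
    exact ⟨_, by omega, by omega, this⟩
  · have := hf (c + 1) (by rw [hcr, add_assoc]; exact hX (r + 1) (by omega) (by omega))
    rw [add_mul, one_mul] at this
    exact ⟨_, by omega, by omega, this⟩

/-- in a block of `a`, the previous `a` is near (level `j`) -/
theorem gap_left (hk : 1 ≤ k) (j q u : ℕ) (hq : X k q = none)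
    (h1 : q * (3 * k + 1) ^ (j + 1) ≤ u) (h2 : u < (q + 1) * (3 * k + 1) ^ (j + 1)) :
    ∃ z, z ≤ u ∧ u ≤ z + 2 * (3 * k + 1) ^ j ∧ X k z = none := by
  have hp : 0 < (3 * k + 1) ^ j := by positivity
  obtain ⟨c, r, hr, hcr, hu1, hu2, hX⟩ := sub_block hk j q u hq h1 h2
  have hf := fun c' => X_first (k := k) hk j c'
  have hl := fun c' => X_last (k := k) hk j c'
  clear h1 h2
  generalize (3 * k + 1) ^ j = E at *
  rcases (show r % 3 = 0 ∨ r % 3 = 1 ∨ r % 3 = 2 by omega) with h3 | h3 | h3
  · have := hf c (by rw [hcr]; exact hX r hr h3)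
    exact ⟨_, by omega, by omega, this⟩
  · obtain ⟨c', hc'⟩ : ∃ c', c = c' + 1 := ⟨c - 1, by omega⟩
    have := hl c' (by
      rw [show c' = q * (3 * k + 1) + (r - 1) by omega]
      exact hX (r - 1) (by omega) (by omega))
    rw [← hc'] at this
    have h5 : 0 < c * E := by rw [hc']; positivity
    exact ⟨_, by omega, by omega, this⟩
  · obtain ⟨c', hc'⟩ : ∃ c', c = c' + 2 := ⟨c - 2, by omega⟩
    have := hl c' (by
      rw [show c' = q * (3 * k + 1) + (r - 2) by omega]
      exact hX (r - 2) (by omega) (by omega))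
    have e1 : c * E = (c' + 1) * E + E := by rw [hc']; ring
    have h5 : 0 < (c' + 1) * E := by positivity
    exact ⟨_, by omega, by omega, this⟩

theorem open_core {B : Type} (x : ℕ → Option B) (N e Q p : ℕ) (he : 0 < e) (hN4 : 4 * e ≤ N)
    (hfirst : x Q = none) (hlast : x (Q + N - 1) = none)
    (hbef : 0 < Q → ∃ b, ∀ u, u < Q → Q ≤ u + 2 * N → x u = some b)
    (haft : ∃ b, ∀ u, Q + N ≤ u → u < Q + N + 2 * N → x u = some b)
    (hgr : ∀ u, Q ≤ u → u < Q + N → ∃ z, u ≤ z ∧ z ≤ u + 2 * e ∧ x z = none)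
    (hgl : ∀ u, Q ≤ u → u < Q + N → ∃ z, z ≤ u ∧ u ≤ z + 2 * e ∧ x z = none)
    (hz1 : p < Q + N) (hz2 : Q < p + (N + 4 * e + 1)) :
    ¬ Closed (fac x p (N + 4 * e + 1)) := by
  intro hcl
  obtain ⟨l, hl1, hl2, hl3, hl4⟩ := closed_data x p _ (by omega) hcl
  rcases Nat.lt_or_ge (p + (N + 4 * e + 1) - (Q + N)) (Q - p) with hst | hst
  · -- the left side is longer
    obtain ⟨b, hb⟩ := hbef (by omega)
    rcases Nat.lt_or_ge l (Q - p) with h3 | h3
    · have := hl4 1 (by omega) (by
        intro t ht
        rw [hb (p + 1 + t) (by omega) (by omega), hb (p + t) (by omega) (by omega)])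
      omega
    · have hb' : ∀ t < Q - p, x (p + (N + 4 * e + 1 - l) + t) = some b := by
        intro t ht
        rw [← hl3 t (by omega)]
        exact hb (p + t) (by omega) (by omega)
      rcases Nat.lt_or_ge Q (p + (N + 4 * e + 1 - l)) with h4 | h4
      · obtain ⟨y, hy1, hy2, hy3⟩ := hgr (p + (N + 4 * e + 1 - l)) (by omega) (by omega)
        have := hb' (y - (p + (N + 4 * e + 1 - l))) (by omega)
        rw [show p + (N + 4 * e + 1 - l) + (y - (p + (N + 4 * e + 1 - l))) = y by omega,
          hy3] at this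
        exact absurd this (by simp)
      · have := hb' (Q - (p + (N + 4 * e + 1 - l))) (by omega)
        rw [show p + (N + 4 * e + 1 - l) + (Q - (p + (N + 4 * e + 1 - l))) = Q by omega,
          hfirst] at this
        exact absurd this (by simp)
  · -- the right side is longer
    obtain ⟨b, hb⟩ := haft
    have hst' : Q - p < p + (N + 4 * e + 1) - (Q + N) := by omega
    rcases Nat.lt_or_ge l (p + (N + 4 * e + 1) - (Q + N)) with h3 | h3
    · have := hl4 (N + 4 * e + 1 - l - 1) (by omega) (by
        intro t ht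
        rw [hl3 t ht, hb (p + (N + 4 * e + 1 - l - 1) + t) (by omega) (by omega),
          hb (p + (N + 4 * e + 1 - l) + t) (by omega) (by omega)])
      omega
    · -- the last letters of the first occurrence
      have hb' : ∀ t, l - (p + (N + 4 * e + 1) - (Q + N)) ≤ t → t < l →
          x (p + t) = some b := by
        intro t ht1 ht2
        rw [hl3 t ht2]
        exact hb _ (by omega) (by omega)
      rcases Nat.lt_or_ge (p + (l - 1)) (Q + N) with h4 | h4
      · obtain ⟨y, hy1, hy2, hy3⟩ := hgl (p + (l - 1)) (by omega) (by omega)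
        have := hb' (y - p) (by omega) (by omega)
        rw [show p + (y - p) = y by omega, hy3] at this
        exact absurd this (by simp)
      · have := hb' (Q + N - 1 - p) (by omega) (by omega)
        rw [show p + (Q + N - 1 - p) = Q + N - 1 by omega, hlast] at this
        exact absurd this (by simp)

/-- windows of length `m^(j+1) + 4 m^j + 1` with an `a` are open -/
theorem X_open (hk : 1 ≤ k) (j p z : ℕ) (hz1 : p ≤ z)
    (hz2 : z < p + ((3 * k + 1) ^ (j + 1) + 4 * (3 * k + 1) ^ j + 1)) (hz : X k z = none) :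
    ¬ Closed (fac (X k) p ((3 * k + 1) ^ (j + 1) + 4 * (3 * k + 1) ^ j + 1)) := by
  have he : 0 < (3 * k + 1) ^ j := by positivity
  have hN4 : 4 * (3 * k + 1) ^ j ≤ (3 * k + 1) ^ (j + 1) := by
    rw [pow_succ']; exact Nat.mul_le_mul_right _ (by omega)
  have hNp : 0 < (3 * k + 1) ^ (j + 1) := by positivity
  -- the block of `z`
  obtain ⟨q, hq1, hq2⟩ : ∃ q, q * (3 * k + 1) ^ (j + 1) ≤ z ∧
      z < (q + 1) * (3 * k + 1) ^ (j + 1) :=
    ⟨z / (3 * k + 1) ^ (j + 1), Nat.div_mul_le_self _ _, by
      rw [mul_comm]; exact Nat.lt_mul_div_succ z hNp⟩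
  have hq := X_none_of hk (j + 1) q z hq1 hq2 hz
  have hqq : (q + 1) * (3 * k + 1) ^ (j + 1) =
    q * (3 * k + 1) ^ (j + 1) + (3 * k + 1) ^ (j + 1) := by ring
  have hqq2 : (q + 2) * (3 * k + 1) ^ (j + 1) =
    q * (3 * k + 1) ^ (j + 1) + 2 * (3 * k + 1) ^ (j + 1) := by ring
  have hqq3 : (q + 2 + 1) * (3 * k + 1) ^ (j + 1) =
    q * (3 * k + 1) ^ (j + 1) + 3 * (3 * k + 1) ^ (j + 1) := by ring
  apply open_core (X k) _ _ (q * (3 * k + 1) ^ (j + 1)) p he hN4 (X_first hk (j + 1) q hq)
  · have := X_last hk (j + 1) q hq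
    rwa [hqq] at this
  · intro hQ
    have hq0 : 0 < q := by
      rcases Nat.eq_zero_or_pos q with h0 | h0
      · rw [h0, zero_mul] at hQ; omega
      · exact h0
    obtain ⟨i, hi0, hi1, hi2⟩ := X_prv hk q hq0 hq
    obtain ⟨q', rfl⟩ : ∃ q', q = q' + 2 := ⟨q - 2, by omega⟩
    refine ⟨i, ?_⟩
    intro u' h3 h4
    rw [show q' + 2 - 1 = q' + 1 by omega] at hi1
    rw [show q' + 2 - 2 = q' by omega] at hi2
    rcases Nat.lt_or_ge u' ((q' + 1) * (3 * k + 1) ^ (j + 1)) with h5 | h5
    · apply X_some hk (j + 1) q' i hi2 u' _ h5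
      rw [add_mul] at h4
      omega
    · exact X_some hk (j + 1) (q' + 1) i hi1 u' h5 (by rw [add_assoc]; exact h3)
  · obtain ⟨i, hi1, hi2⟩ := X_nxt hk q hq
    refine ⟨i, ?_⟩
    intro u' h3 h4
    rcases Nat.lt_or_ge u' ((q + 2) * (3 * k + 1) ^ (j + 1)) with h5 | h5
    · exact X_some hk (j + 1) (q + 1) i hi1 u' (by omega) (by rw [add_assoc]; exact h5)
    · exact X_some hk (j + 1) (q + 2) i hi2 u' h5 (by omega)
  · intro u h1 h2
    exact gap_right hk j q u hq h1 (by rw [hqq]; exact h2)
  · intro u h1 h2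
    exact gap_left hk j q u hq h1 (by rw [hqq]; exact h2)
  · omega
  · omega

/-- windows without `a` are powers of a letter -/
theorem X_free (hk : 1 ≤ k) (p n : ℕ) (hn : 1 ≤ n)
    (h : ∀ z, p ≤ z → z < p + n → X k z ≠ none) :
    ∃ i, fac (X k) p n = List.replicate n (some i) := by
  rcases hp : X k p with _ | i
  · exact absurd hp (h p le_rfl (by omega))
  refine ⟨i, ?_⟩
  have key : ∀ t, t < n → X k (p + t) = some i := by
    intro t
    induction t with
    | zero => intro _; exact hp
    | succ t ih =>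
      intro ht
      have h1 := ih (by omega)
      rcases h2 : X k (p + (t + 1)) with _ | j
      · exact absurd h2 (h _ (by omega) (by omega))
      · rw [X_adj hk (p + t) i j h1 (by rw [← h2]; congr 1)]
  apply List.ext_getElem
  · simp [fac]
  · intro t h1 h2
    simp only [fac, List.getElem_map, List.getElem_range, List.getElem_replicate]
    exact key t (by simpa [fac] using h1)

theorem X_run (hk : 1 ≤ k) (n : ℕ) (i : Fin k) :
    ∃ p, fac (X k) p n = List.replicate n (some i) := by
  refine ⟨(3 * i.1 + 1) * (3 * k + 1) ^ n, ?_⟩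
  have hi := i.2
  have h0 : X k (3 * i.1 + 1) = some i := by
    have := X_add hk 0 (3 * i.1 + 1) (by omega)
    rw [zero_mul, zero_add] at this
    rw [this, X_zero, gk_none' _ (by omega) (by omega)]
    congr 1
    apply Fin.ext
    show (3 * i.1 + 1) / 3 = i.1
    omega
  have hn : n < (3 * k + 1) ^ n := Nat.lt_pow_self (by omega)
  apply List.ext_getElem
  · simp [fac]
  · intro t h1 h2
    simp only [fac, List.getElem_map, List.getElem_range, List.getElem_replicate]
    have h1 : t < n := by simpa [fac] using h1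
    apply X_some hk n (3 * i.1 + 1) i h0
    · omega
    · rw [add_mul (3 * i.1 + 1) 1, one_mul]
      omega

theorem powers_ncard (n : ℕ) (hn : 1 ≤ n) :
    (Set.range (fun i : Fin k => List.replicate n (some i))).ncard = k := by
  rw [← Set.image_univ, Set.ncard_image_of_injective]
  · simp [Set.ncard_univ]
  · intro i j h
    have h1 : List.replicate n (some i) = List.replicate n (some j) := h
    rw [List.replicate_inj] at h1
    rcases h1.2 with h2 | h2
    · omega
    · exact Option.some.inj h2

theorem cl_ge (hk : 1 ≤ k) (n : ℕ) (hn : 1 ≤ n) : k ≤ cl (X k) n := by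
  rw [cl]
  conv_lhs => rw [← powers_ncard (k := k) n hn]
  apply Set.ncard_le_ncard
  · rintro w ⟨i, rfl⟩
    obtain ⟨p, hp⟩ := X_run hk n i
    exact ⟨⟨p, hp.symm⟩, closed_replicate n _⟩
  · apply (List.finite_length_eq (Option (Fin k)) n).subset
    rintro w ⟨⟨i, rfl⟩, -⟩
    exact fac_length _ _ _

theorem cl_eq (hk : 1 ≤ k) (j : ℕ) :
    cl (X k) ((3 * k + 1) ^ (j + 1) + 4 * (3 * k + 1) ^ j + 1) = k := by
  apply le_antisymm _ (cl_ge hk _ (by omega))
  rw [cl]
  conv_rhs => rw [← powers_ncard (k := k)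
    ((3 * k + 1) ^ (j + 1) + 4 * (3 * k + 1) ^ j + 1) (by omega)]
  apply Set.ncard_le_ncard _ (Set.finite_range _)
  rintro w ⟨⟨p, rfl⟩, h⟩
  by_cases hz : ∃ z, p ≤ z ∧ z < p + ((3 * k + 1) ^ (j + 1) + 4 * (3 * k + 1) ^ j + 1) ∧
      X k z = none
  · obtain ⟨z, hz1, hz2, hz3⟩ := hz
    exact absurd h (X_open hk j p z hz1 hz2 hz3)
  · push Not at hz
    obtain ⟨i, hi⟩ := X_free hk p _ (by omega) hz
    exact ⟨i, hi.symm⟩

theorem X_aper (hk : 1 ≤ k) : Aperiodic (X k) := by
  rintro ⟨N, P, hP, h⟩
  set J := N + P with hJ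
  have hJ1 : J < (3 * k + 1) ^ J := Nat.lt_pow_self (by omega)
  have h3 : X k 3 = none := by
    have := X_add hk 0 3 (by omega)
    rw [zero_mul, zero_add] at this
    rw [this, X_zero, gk_none _ (by omega)]
  have h2 : X k 2 = some ⟨0, hk⟩ := by
    have := X_add hk 0 2 (by omega)
    rw [zero_mul, zero_add] at this
    rw [this, X_zero, gk_none' _ (by omega) (by omega)]
  have h4 := X_first hk J 3 h3
  have h5 := X_some hk J 2 _ h2 (3 * (3 * k + 1) ^ J - P) (by omega) (by omega)
  have h6 := h (3 * (3 * k + 1) ^ J - P) (by omega)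
  rw [show 3 * (3 * k + 1) ^ J - P + P = 3 * (3 * k + 1) ^ J by omega, h4, h5] at h6
  exact absurd h6 (by simp)

end pos

end Proof

/-- For every `k` there is an aperiodic pure morphic word with
`liminf cl_x(n) = k`. -/
theorem result : ∀ k : ℕ, ∃ (A : Type) (_ : Fintype A) (x : ℕ → A),
    Aperiodic x ∧ PureMorphic x ∧ liminf (fun n => (cl x n : ℕ∞)) atTop = k := by
  intro k
  rcases Nat.eq_zero_or_pos k with hk | hk
  · subst hk
    refine ⟨Bool × Bool, inferInstance, Proof.pf, Proof.pf_aper,
      Proof.pure_fp 2 (by norm_num) Proof.gp (false, false) rfl, ?_⟩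
    apply le_antisymm _ bot_le
    apply liminf_le_of_frequently_le'
    rw [frequently_atTop]
    intro n
    refine ⟨2 ^ (n + 1), ?_, ?_⟩
    · exact (Nat.lt_two_pow_self.le.trans (Nat.pow_le_pow_right (by norm_num) (by omega)))
    · rw [Proof.pf_cl (n + 1) (by omega)]
      simp
  · refine ⟨Option (Fin k), inferInstance, Proof.X k, Proof.X_aper hk,
      Proof.pure_fp (3 * k + 1) (by omega) (Proof.gk k) none (by simp [Proof.gk]), ?_⟩
    apply le_antisymm
    · apply liminf_le_of_frequently_le'
      rw [frequently_atTop]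
      intro n
      refine ⟨(3 * k + 1) ^ (n + 1) + 4 * (3 * k + 1) ^ n + 1, ?_, ?_⟩
      · have h1 : n < (3 * k + 1) ^ n := Nat.lt_pow_self (by omega)
        show n ≤ _
        omega
      · rw [Proof.cl_eq hk n]
    · apply le_liminf_of_le
      · isBoundedDefault
      · filter_upwards [eventually_ge_atTop 1] with n hn
        exact_mod_cast Proof.cl_ge hk n hn

end Pool.Agent.Results.MP_c8d5ab_co.Prescribed
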